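import Mathlib

/-! Numerators of the weighted sum of Hall-Littlewood polynomials at `t = -1`. -/

set_option autoImplicit false
set_option linter.style.longLine false

namespace R80HL
open Finset

section weights
variable {R : Type*} [CommRing R]

/-- the weight of a list of row lengths: odd rows are filled with `a, b, a, b, ...`,
even rows with `c, d, c, d, ...` -/
def om : R → R → R → R → List ℕ → R
  | _, _, _, _, [] => 1
  | a, b, c, d, (k :: l) => a ^ ((k + 1) / 2) * b ^ (k / 2) * om c d a b l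

/-- the weight of a pair of equal rows -/
def pw (a b c d : R) (j : ℕ) : R := (a * c) ^ ((j + 1) / 2) * (b * d) ^ (j / 2)

theorem pw_swap (a b c d : R) (j : ℕ) : pw c d a b j = pw a b c d j := by
  simp [pw, mul_comm]

theorem om_insert2 (j : ℕ) (l₁ l₂ : List ℕ) : ∀ a b c d : R,
    om a b c d (l₁ ++ j :: j :: l₂) = pw a b c d j * om a b c d (l₁ ++ l₂) := by
  induction l₁ with
  | nil => intro a b c d; simp only [List.nil_append, om, pw, mul_pow]; ring
  | cons k l ih =>
    intro a b c d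
    simp only [List.cons_append, om, ih c d a b, pw_swap]
    ring

theorem oi_twice (j : ℕ) : ∀ l : List ℕ, ∃ l₁ l₂ : List ℕ, l = l₁ ++ l₂ ∧
    (l.orderedInsert (· ≥ ·) j).orderedInsert (· ≥ ·) j = l₁ ++ j :: j :: l₂
  | [] => ⟨[], [], by simp⟩
  | k :: l => by
    by_cases h : j ≥ k
    · exact ⟨[], k :: l, by simp, by simp [List.orderedInsert, h]⟩
    · obtain ⟨l₁, l₂, h1, h2⟩ := oi_twice j l
      refine ⟨k :: l₁, l₂, by simp [h1], ?_⟩
      simp only [List.orderedInsert, h, if_false, List.cons_append]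
      rw [h2]

theorem om_oi_twice (a b c d : R) (j : ℕ) (l : List ℕ) :
    om a b c d ((l.orderedInsert (· ≥ ·) j).orderedInsert (· ≥ ·) j) = pw a b c d j * om a b c d l := by
  obtain ⟨l₁, l₂, h1, h2⟩ := oi_twice j l
  rw [h2, om_insert2, ← h1]

theorem om_zeros : ∀ (l : List ℕ), (∀ x ∈ l, x = 0) → ∀ a b c d : R, om a b c d l = 1
  | [], _, _, _, _, _ => rfl
  | k :: l, h, a, b, c, d => by
    have hk : k = 0 := h k (by simp)
    subst hk
    simp only [om, Nat.zero_div, pow_zero, om_zeros l (fun x hx => h x (by simp [hx])) c d a b]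
    simp

theorem om_oi_zero : ∀ (l : List ℕ), l.Pairwise (· ≥ ·) → ∀ a b c d : R,
    om a b c d (l.orderedInsert (· ≥ ·) 0) = om a b c d l
  | [], _, _, _, _, _ => by simp [om]
  | k :: l, h, a, b, c, d => by
    rw [List.pairwise_cons] at h
    by_cases hk : 0 ≥ k
    · have hk' : k = 0 := by omega
      subst hk'
      have hz : ∀ x ∈ l, x = 0 := fun x hx => by have := h.1 x hx; omega
      rw [om_zeros, om_zeros]
      · intro x hx
        rcases List.mem_cons.1 hx with h1 | h1
        · exact h1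
        · exact hz x h1
      · intro x hx
        simp only [List.orderedInsert, ge_iff_le, le_refl, if_true, List.mem_cons] at hx
        rcases hx with h1 | h1 | h1
        · exact h1
        · exact h1
        · exact hz x h1
    · simp only [List.orderedInsert, hk, if_false, om]
      rw [om_oi_zero l h.2]

/-- the weight of an exponent vector: the weight of its decreasing rearrangement -/
def omF (a b c d : R) {n : ℕ} (α : Fin n → ℕ) : R :=
  om a b c d ((List.ofFn α).insertionSort (· ≥ ·))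

theorem omF_cons2 (a b c d : R) {n : ℕ} (α : Fin n → ℕ) (j : ℕ) :
    omF a b c d (Fin.cons j (Fin.cons j α) : Fin (n + 2) → ℕ) = pw a b c d j * omF a b c d α := by
  unfold omF
  rw [List.ofFn_cons, List.ofFn_cons, List.insertionSort_cons, List.insertionSort_cons, om_oi_twice]

theorem omF_cons0 (a b c d : R) {n : ℕ} (α : Fin n → ℕ) :
    omF a b c d (Fin.cons 0 α : Fin (n + 1) → ℕ) = omF a b c d α := by
  unfold omF
  rw [List.ofFn_cons, List.insertionSort_cons, om_oi_zero]
  exact List.pairwise_insertionSort _ _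

theorem omF_perm (a b c d : R) {n : ℕ} (α : Fin n → ℕ) (σ : Equiv.Perm (Fin n)) :
    omF a b c d (α ∘ σ) = omF a b c d α := by
  unfold omF
  congr 1
  apply List.Perm.eq_of_pairwise' (List.pairwise_insertionSort (· ≥ ·) _) (List.pairwise_insertionSort (· ≥ ·) _)
  refine (List.perm_insertionSort _ _).trans (List.Perm.trans ?_ (List.perm_insertionSort _ _).symm)
  exact Equiv.Perm.ofFn_comp_perm σ α

end weights

section numer
variable {A : Type*} [CommRing A]

def gg (α β : ℕ) (x y : A) : A := if α = β then x - y else if β < α then x + y else -(x + y)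

theorem gg_anti (α β : ℕ) (x y : A) : gg α β x y = - gg β α y x := by
  unfold gg
  rcases lt_trichotomy α β with h | h | h
  · rw [if_neg (by omega), if_neg (by omega), if_neg (by omega), if_pos h]; ring
  · subst h; simp
  · rw [if_neg (by omega), if_pos h, if_neg (by omega), if_neg (by omega)]; ring

def VV {n : ℕ} (x : Fin n → A) : A := ∏ i, ∏ j ∈ Ioi i, (x i - x j)
def GG {n : ℕ} (α : Fin n → ℕ) (x : Fin n → A) : A := ∏ i, ∏ j ∈ Ioi i, gg (α i) (α j) (x i) (x j)

theorem prod_pairs_cons {n : ℕ} (f : Fin (n + 1) → Fin (n + 1) → A) :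
    ∏ i, ∏ j ∈ Ioi i, f i j = (∏ j : Fin n, f 0 j.succ) * ∏ i : Fin n, ∏ j ∈ Ioi i, f i.succ j.succ := by
  rw [Fin.prod_univ_succ, Fin.prod_Ioi_zero]
  congr 1
  refine Finset.prod_congr rfl fun i _ => ?_
  rw [Fin.prod_Ioi_succ]

theorem VV_cons {n : ℕ} (u : A) (x : Fin n → A) :
    VV (Fin.cons u x : Fin (n + 1) → A) = (∏ j, (u - x j)) * VV x := by
  unfold VV; rw [prod_pairs_cons]; simp

theorem GG_cons {n : ℕ} (k : ℕ) (α : Fin n → ℕ) (u : A) (x : Fin n → A) :
    GG (Fin.cons k α : Fin (n + 1) → ℕ) (Fin.cons u x : Fin (n + 1) → A) =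
      (∏ j, gg k (α j) u (x j)) * GG α x := by
  unfold GG; rw [prod_pairs_cons]; simp

theorem VV_perm {n : ℕ} (x : Fin n → A) (σ : Equiv.Perm (Fin n)) :
    VV (x ∘ σ) = (Equiv.Perm.sign σ : ℤ) * VV x := by
  unfold VV
  exact σ.prod_Ioi_comp_eq_sign_mul_prod (f := fun i j => x i - x j) (by intro i j; ring)

theorem GG_perm {n : ℕ} (α : Fin n → ℕ) (x : Fin n → A) (σ : Equiv.Perm (Fin n)) :
    GG (α ∘ σ) (x ∘ σ) = (Equiv.Perm.sign σ : ℤ) * GG α x := by
  unfold GG
  exact σ.prod_Ioi_comp_eq_sign_mul_prod (f := fun i j => gg (α i) (α j) (x i) (x j))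
    (by intro i j; exact gg_anti _ _ _ _)

variable {R : Type*} [CommRing R] [Algebra R A]

/-- numerator of the degree `m` part of the weighted sum -/
def NN (a b c d : R) (n m : ℕ) (x : Fin n → A) : A :=
  ∑ α ∈ Finset.Nat.antidiagonalTuple n m, algebraMap R A (omF a b c d α) * (∏ i, x i ^ α i) * GG α x

theorem NN_perm (a b c d : R) (n m : ℕ) (x : Fin n → A) (σ : Equiv.Perm (Fin n)) :
    NN a b c d n m (x ∘ σ) = (Equiv.Perm.sign σ : ℤ) * NN a b c d n m x := by
  unfold NN
  rw [Finset.mul_sum]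
  refine Finset.sum_bij' (fun α _ => α ∘ (σ⁻¹ : Equiv.Perm (Fin n))) (fun α _ => α ∘ σ) ?_ ?_ ?_ ?_ ?_
  · intro α hα
    rw [Finset.Nat.mem_antidiagonalTuple] at hα ⊢
    rw [← hα]; exact Equiv.sum_comp (σ⁻¹ : Equiv.Perm (Fin n)) α
  · intro α hα
    rw [Finset.Nat.mem_antidiagonalTuple] at hα ⊢
    rw [← hα]; exact Equiv.sum_comp σ α
  · intro α _; ext i; simp
  · intro α _; ext i; simp
  · intro α _
    obtain ⟨β, rfl⟩ : ∃ β : Fin n → ℕ, α = β ∘ σ := ⟨α ∘ (σ⁻¹ : Equiv.Perm (Fin n)), by ext i; simp⟩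
    have h1 : (β ∘ σ) ∘ (σ⁻¹ : Equiv.Perm (Fin n)) = β := by ext i; simp
    rw [h1, omF_perm, GG_perm]
    have h2 : ∏ i, (x ∘ σ) i ^ (β ∘ σ) i = ∏ i, x i ^ β i :=
      Equiv.prod_comp σ (fun i => x i ^ β i)
    rw [h2]; ring

theorem sum_antidiagonalTuple_succ {B : Type*} [AddCommMonoid B] (n m : ℕ) (f : (Fin (n + 1) → ℕ) → B) :
    ∑ α ∈ Finset.Nat.antidiagonalTuple (n + 1) m, f α =
      ∑ p ∈ Finset.HasAntidiagonal.antidiagonal m, ∑ β ∈ Finset.Nat.antidiagonalTuple n p.2, f (Fin.cons p.1 β) := by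
  rw [Finset.sum_sigma']
  refine Finset.sum_bij' (fun α _ => ⟨(α 0, ∑ i : Fin n, α i.succ), fun i => α i.succ⟩)
    (fun p _ => Fin.cons p.1.1 p.2) ?_ ?_ ?_ ?_ ?_
  · intro α hα
    rw [Finset.Nat.mem_antidiagonalTuple, Fin.sum_univ_succ] at hα
    simp [Finset.Nat.mem_antidiagonalTuple, hα]
  · rintro ⟨⟨i, j⟩, β⟩ h
    simp only [mem_sigma, HasAntidiagonal.mem_antidiagonal, Finset.Nat.mem_antidiagonalTuple] at h
    rw [Finset.Nat.mem_antidiagonalTuple, Fin.sum_univ_succ]
    simp [h.2, h.1]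
  · intro α _; exact Fin.cons_self_tail α
  · rintro ⟨⟨i, j⟩, β⟩ h
    simp only [mem_sigma, HasAntidiagonal.mem_antidiagonal, Finset.Nat.mem_antidiagonalTuple] at h
    obtain ⟨_, h2⟩ := h
    subst h2
    simp
  · intro α _
    congr 1
    exact (Fin.cons_self_tail α).symm

theorem NN_cons0 (a b c d : R) (n m : ℕ) (x : Fin n → A) :
    NN a b c d (n + 1) m (Fin.cons 0 x : Fin (n + 1) → A) = (∏ j, (0 - x j)) * NN a b c d n m x := by
  unfold NN
  rw [sum_antidiagonalTuple_succ, Finset.sum_eq_single (0, m)]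
  · rw [Finset.mul_sum]
    refine Finset.sum_congr rfl fun β _ => ?_
    rw [omF_cons0, GG_cons]
    have h1 : ∏ j, gg 0 (β j) 0 (x j) = ∏ j, (0 - x j) := by
      refine Finset.prod_congr rfl fun j _ => ?_
      unfold gg
      by_cases h : (0 : ℕ) = β j
      · rw [if_pos h]
      · rw [if_neg h, if_neg (by omega)]; ring
    rw [h1, Fin.prod_univ_succ]
    simp only [Fin.cons_zero, pow_zero, one_mul, Fin.cons_succ]
    ring
  · rintro ⟨i, j⟩ hp hne
    rw [HasAntidiagonal.mem_antidiagonal] at hp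
    have hi : i ≠ 0 := by
      rintro rfl
      apply hne
      simp only [zero_add] at hp
      simp [hp]
    refine Finset.sum_eq_zero fun β _ => ?_
    rw [Fin.prod_univ_succ]
    simp [zero_pow hi]
  · intro h; exact absurd (by simp) h

theorem NN_pair (a b c d : R) (n m : ℕ) (u : A) (x : Fin n → A) :
    NN a b c d (n + 2) m (Fin.cons u (Fin.cons (-u) x) : Fin (n + 2) → A) =
      (2 * u) * (∏ j, (x j ^ 2 - u ^ 2)) *
        ∑ p ∈ (Finset.HasAntidiagonal.antidiagonal m).filter (fun p => Even p.1),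
          algebraMap R A (pw a b c d (p.1 / 2)) * (-u ^ 2) ^ (p.1 / 2) * NN a b c d n p.2 x := by
  unfold NN
  rw [sum_antidiagonalTuple_succ]
  have key : ∀ p ∈ Finset.HasAntidiagonal.antidiagonal m, ∑ β ∈ Finset.Nat.antidiagonalTuple (n + 1) p.2,
      algebraMap R A (omF a b c d (Fin.cons p.1 β : Fin (n + 2) → ℕ)) *
        (∏ i, (Fin.cons u (Fin.cons (-u) x) : Fin (n + 2) → A) i ^ (Fin.cons p.1 β : Fin (n + 2) → ℕ) i) *
        GG (Fin.cons p.1 β : Fin (n + 2) → ℕ) (Fin.cons u (Fin.cons (-u) x) : Fin (n + 2) → A) =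
      if p.1 ≤ p.2 then
        ∑ β ∈ Finset.Nat.antidiagonalTuple n (p.2 - p.1),
          (2 * u) * (∏ j, (x j ^ 2 - u ^ 2)) * (algebraMap R A (pw a b c d p.1) * (-u ^ 2) ^ p.1) *
          (algebraMap R A (omF a b c d β) * (∏ i, x i ^ β i) * GG β x)
      else 0 := by
    rintro ⟨j, k⟩ _
    simp only
    rw [sum_antidiagonalTuple_succ]
    have hterm : ∀ q ∈ Finset.HasAntidiagonal.antidiagonal k, q.1 ≠ j → ∑ β ∈ Finset.Nat.antidiagonalTuple n q.2,
        algebraMap R A (omF a b c d (Fin.cons j (Fin.cons q.1 β : Fin (n + 1) → ℕ) : Fin (n + 2) → ℕ)) *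
        (∏ i, (Fin.cons u (Fin.cons (-u) x) : Fin (n + 2) → A) i ^
          (Fin.cons j (Fin.cons q.1 β : Fin (n + 1) → ℕ) : Fin (n + 2) → ℕ) i) *
        GG (Fin.cons j (Fin.cons q.1 β : Fin (n + 1) → ℕ) : Fin (n + 2) → ℕ)
          (Fin.cons u (Fin.cons (-u) x) : Fin (n + 2) → A) = 0 := by
      intro q _ hq
      refine Finset.sum_eq_zero fun β _ => ?_
      have : gg j q.1 u (-u) = (0 : A) := by
        unfold gg
        rw [if_neg (Ne.symm hq)]
        split_ifs <;> simp
      have h2 : ∏ i, gg j ((Fin.cons q.1 β : Fin (n + 1) → ℕ) i) u ((Fin.cons (-u) x : Fin (n + 1) → A) i) = 0 := by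
        rw [Fin.prod_univ_succ]
        simp only [Fin.cons_zero, this, zero_mul]
      rw [GG_cons, h2, zero_mul, mul_zero]
    split_ifs with hjk
    · rw [Finset.sum_eq_single (j, k - j)]
      · refine Finset.sum_congr rfl fun β _ => ?_
        rw [GG_cons, GG_cons, omF_cons2, Fin.prod_univ_succ, Fin.prod_univ_succ, Fin.prod_univ_succ]
        simp only [Fin.cons_zero, Fin.cons_succ]
        have h0 : gg j j u (-u) = 2 * u := by unfold gg; rw [if_pos rfl]; ring
        have h1 : (∏ i, gg j (β i) u (x i)) * (∏ i, gg j (β i) (-u) (x i)) = ∏ i, (x i ^ 2 - u ^ 2) := by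
          rw [← Finset.prod_mul_distrib]
          refine Finset.prod_congr rfl fun i _ => ?_
          unfold gg
          split_ifs <;> ring
        rw [h0, ← h1, map_mul, neg_pow (u ^ 2) j, neg_pow u j]
        ring
      · intro q hq hne
        refine hterm q hq ?_
        intro hqj
        apply hne
        rw [HasAntidiagonal.mem_antidiagonal] at hq
        ext
        · exact hqj
        · simp only; omega
      · intro h
        exact absurd (by rw [HasAntidiagonal.mem_antidiagonal]; simp only; omega) h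
    · refine Finset.sum_eq_zero fun q hq => hterm q hq ?_
      intro h
      rw [HasAntidiagonal.mem_antidiagonal] at hq
      omega
  rw [Finset.sum_congr rfl key, ← Finset.sum_filter, Finset.mul_sum]
  refine Finset.sum_bij' (fun p _ => (2 * p.1, p.2 - p.1)) (fun p _ => (p.1 / 2, p.2 + p.1 / 2)) ?_ ?_ ?_ ?_ ?_
  · rintro ⟨i, j⟩ h
    simp only [mem_filter, HasAntidiagonal.mem_antidiagonal] at h ⊢
    exact ⟨by omega, even_two_mul i⟩
  · rintro ⟨i, j⟩ h
    simp only [mem_filter, HasAntidiagonal.mem_antidiagonal] at h ⊢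
    obtain ⟨h1, r, h2⟩ := h
    omega
  · rintro ⟨i, j⟩ h
    simp only [mem_filter, HasAntidiagonal.mem_antidiagonal] at h
    ext <;> simp only <;> omega
  · rintro ⟨i, j⟩ h
    simp only [mem_filter, HasAntidiagonal.mem_antidiagonal] at h
    obtain ⟨h1, r, h2⟩ := h
    ext <;> simp only <;> omega
  · rintro ⟨i, j⟩ h
    simp only
    rw [Nat.mul_div_cancel_left i (by norm_num : 0 < 2), Finset.mul_sum, Finset.mul_sum]
    refine Finset.sum_congr rfl fun β _ => ?_
    ring

theorem VV_pair {n : ℕ} (u : A) (x : Fin n → A) :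
    VV (Fin.cons u (Fin.cons (-u) x) : Fin (n + 2) → A) =
      (2 * u) * (∏ j, (x j ^ 2 - u ^ 2)) * VV x := by
  rw [VV_cons, VV_cons, Fin.prod_univ_succ]
  simp only [Fin.cons_zero, Fin.cons_succ]
  have h1 : (∏ i, (u - x i)) * (∏ i, (-u - x i)) = ∏ i, (x i ^ 2 - u ^ 2) := by
    rw [← Finset.prod_mul_distrib]
    refine Finset.prod_congr rfl fun i _ => ?_
    ring
  rw [← h1]; ring

variable {B : Type*} [CommRing B] [Algebra R B]

theorem map_gg (f : A →+* B) (α β : ℕ) (x y : A) : f (gg α β x y) = gg α β (f x) (f y) := by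
  unfold gg; split_ifs <;> simp

theorem map_NN (f : A →ₐ[R] B) (a b c d : R) (n m : ℕ) (x : Fin n → A) :
    f (NN a b c d n m x) = NN a b c d n m (fun i => f (x i)) := by
  unfold NN GG
  simp only [map_sum, map_mul, map_prod, map_pow, AlgHom.commutes]
  refine Finset.sum_congr rfl fun α _ => ?_
  congr 1
  refine Finset.prod_congr rfl fun i _ => Finset.prod_congr rfl fun j _ => ?_
  exact map_gg f.toRingHom _ _ _ _

theorem map_VV (f : A →+* B) {n : ℕ} (x : Fin n → A) :
    f (VV x) = VV (fun i => f (x i)) := by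
  unfold VV
  simp only [map_prod, map_sub]

end numer

end R80HL
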