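import Pool.Agent.R80.HL.Basic

set_option autoImplicit false
set_option linter.style.longLine false

namespace R80HL
open Finset MvPolynomial

variable {R : Type*} [CommRing R]

theorem sub_dvd_of_subst {n : ℕ} (i j : Fin n) (f : MvPolynomial (Fin n) R)
    (h : aeval (Function.update (X : Fin n → MvPolynomial (Fin n) R) i (X j)) f = 0) :
    (X i - X j : MvPolynomial (Fin n) R) ∣ f := by
  set I : Ideal (MvPolynomial (Fin n) R) := Ideal.span {X i - X j} with hI
  have hh : ((Ideal.Quotient.mkₐ R I).comp
      (aeval (Function.update (X : Fin n → MvPolynomial (Fin n) R) i (X j)))) = Ideal.Quotient.mkₐ R I := by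
    apply MvPolynomial.algHom_ext
    intro k
    simp only [AlgHom.comp_apply, aeval_X]
    by_cases hk : k = i
    · subst hk
      rw [Function.update_self]
      simp only [Ideal.Quotient.mkₐ_eq_mk]
      rw [Ideal.Quotient.eq, hI, Ideal.mem_span_singleton]
      exact ⟨-1, by ring⟩
    · rw [Function.update_of_ne hk]
  have h2 := congrArg (fun g => g f) hh
  simp only [AlgHom.comp_apply, h, map_zero, Ideal.Quotient.mkₐ_eq_mk] at h2
  have h3 : f ∈ I := Ideal.Quotient.eq_zero_iff_mem.1 h2.symm
  rwa [hI, Ideal.mem_span_singleton] at h3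

/-- the substitution `X i ↦ X i - X j` -/
noncomputable def shiftEquiv {n : ℕ} (i j : Fin n) (hij : j ≠ i) :
    MvPolynomial (Fin n) R ≃ₐ[R] MvPolynomial (Fin n) R :=
  AlgEquiv.ofAlgHom
    (aeval (Function.update (X : Fin n → MvPolynomial (Fin n) R) i (X i - X j)))
    (aeval (Function.update (X : Fin n → MvPolynomial (Fin n) R) i (X i + X j)))
    (by
      apply MvPolynomial.algHom_ext
      intro k
      simp only [AlgHom.comp_apply, aeval_X, AlgHom.id_apply]
      by_cases hk : k = i
      · subst hk
        rw [Function.update_self, map_add, aeval_X, aeval_X, Function.update_self,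
          Function.update_of_ne hij]
        ring
      · rw [Function.update_of_ne hk, aeval_X, Function.update_of_ne hk])
    (by
      apply MvPolynomial.algHom_ext
      intro k
      simp only [AlgHom.comp_apply, aeval_X, AlgHom.id_apply]
      by_cases hk : k = i
      · subst hk
        rw [Function.update_self, map_sub, aeval_X, aeval_X, Function.update_self,
          Function.update_of_ne hij]
        ring
      · rw [Function.update_of_ne hk, aeval_X, Function.update_of_ne hk])

theorem prime_sub [IsDomain R] {n : ℕ} (i j : Fin n) (hij : j ≠ i) :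
    Prime (X i - X j : MvPolynomial (Fin n) R) := by
  have h1 : Prime (X i : MvPolynomial (Fin n) R) := X_prime
  have h2 := (MulEquiv.prime_iff (shiftEquiv (R := R) i j hij)).2 h1
  have h3 : shiftEquiv (R := R) i j hij (X i) = X i - X j := by
    simp [shiftEquiv]
  rwa [h3] at h2

theorem relPrime_sub [IsDomain R] {n : ℕ} (i j k l : Fin n) (hij : i < j) (hkl : k < l)
    (hne : ¬ (i = k ∧ j = l)) :
    IsRelPrime (X i - X j : MvPolynomial (Fin n) R) (X k - X l) := by
  rw [(prime_sub i j (ne_of_gt hij)).irreducible.isRelPrime_iff_not_dvd]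
  rintro ⟨q, hq⟩
  have key : ∀ x : Fin n → R, x i = x j → x k = x l := by
    intro x hx
    have h := congrArg (aeval x) hq
    simp only [map_sub, aeval_X, map_mul, hx, sub_self, zero_mul] at h
    exact sub_eq_zero.1 h
  by_cases hk : k = i ∨ k = j
  · have hl : ¬ (l = i ∨ l = j) := by
      rintro (h | h)
      · subst h
        rcases hk with h1 | h1
        · subst h1; exact lt_irrefl _ hkl
        · subst h1; exact lt_asymm hij hkl
      · subst h
        rcases hk with h1 | h1
        · exact hne ⟨h1.symm, rfl⟩
        · subst h1; exact lt_irrefl _ hkl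
    have h := key (fun t => if t = l then 1 else 0) (by
      rw [if_neg, if_neg]
      · intro h; exact hl (Or.inr h.symm)
      · intro h; exact hl (Or.inl h.symm))
    rw [if_neg (ne_of_lt hkl), if_pos rfl] at h
    exact one_ne_zero h.symm
  · have h := key (fun t => if t = k then 1 else 0) (by
      rw [if_neg, if_neg]
      · intro h; exact hk (Or.inr h.symm)
      · intro h; exact hk (Or.inl h.symm))
    rw [if_neg (ne_of_gt hkl), if_pos rfl] at h
    exact one_ne_zero h

theorem VV_dvd [IsDomain R] [UniqueFactorizationMonoid R] {n : ℕ} (f : MvPolynomial (Fin n) R)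
    (h : ∀ i j : Fin n, i < j →
      aeval (Function.update (X : Fin n → MvPolynomial (Fin n) R) i (X j)) f = 0) :
    VV (X : Fin n → MvPolynomial (Fin n) R) ∣ f := by
  unfold VV
  rw [Finset.prod_sigma']
  apply Finset.prod_dvd_of_isRelPrime
  · rintro ⟨i, j⟩ h1 ⟨k, l⟩ h2 hne
    simp only [coe_sigma, Set.mem_sigma_iff, coe_univ, Set.mem_univ, coe_Ioi, Set.mem_Ioi, true_and] at h1 h2
    simp only [Function.onFun]
    apply relPrime_sub i j k l h1 h2
    rintro ⟨h3, h4⟩
    apply hne
    subst h3; subst h4; rfl
  · rintro ⟨i, j⟩ h1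
    simp only [mem_sigma, mem_univ, mem_Ioi, true_and] at h1
    exact sub_dvd_of_subst i j f (h i j h1)

theorem VV_ne_zero {A : Type*} [CommRing A] [IsDomain A] {n : ℕ} (x : Fin n → A)
    (hx : Function.Injective x) : VV x ≠ 0 := by
  unfold VV
  rw [Finset.prod_ne_zero_iff]
  intro i _
  rw [Finset.prod_ne_zero_iff]
  intro j hj
  rw [mem_Ioi] at hj
  exact sub_ne_zero.2 (fun h => ne_of_lt hj (hx h))

theorem NN_vanish {A : Type*} [CommRing A] [IsDomain A] [CharZero A] [Algebra R A] (a b c d : R)
    {n m : ℕ} (x : Fin n → A) (i j : Fin n) (hij : i ≠ j) (hx : x i = x j) :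
    NN a b c d n m x = 0 := by
  have h := NN_perm a b c d n m x (Equiv.swap i j)
  have h1 : x ∘ (Equiv.swap i j) = x := by
    ext k
    simp only [Function.comp_apply]
    by_cases hk : k = i
    · subst hk; rw [Equiv.swap_apply_left, hx]
    · by_cases hk2 : k = j
      · subst hk2; rw [Equiv.swap_apply_right, hx]
      · rw [Equiv.swap_apply_of_ne_of_ne hk hk2]
  rw [h1, Equiv.Perm.sign_swap hij] at h
  simp only [Units.val_neg, Units.val_one, Int.cast_neg, Int.cast_one, neg_mul, one_mul] at h
  have h2 : (2 : A) * NN a b c d n m x = 0 := by linear_combination h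
  rcases mul_eq_zero.1 h2 with h3 | h3
  · exact absurd h3 two_ne_zero
  · exact h3

theorem VV_dvd_NN [IsDomain R] [UniqueFactorizationMonoid R] [CharZero R] (a b c d : R) (n m : ℕ) :
    VV (X : Fin n → MvPolynomial (Fin n) R) ∣ NN a b c d n m (X : Fin n → MvPolynomial (Fin n) R) := by
  apply VV_dvd
  intro i j hij
  rw [map_NN]
  apply NN_vanish a b c d _ i j (ne_of_lt hij)
  simp [Function.update_of_ne (ne_of_gt hij)]

end R80HL
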