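import Mathlib

set_option autoImplicit false
set_option linter.style.longLine false

namespace R80HL
open PowerSeries

section
variable {A : Type*} [CommRing A] [Algebra ℚ A]

theorem hsub {F : A⟦X⟧} (hF : constantCoeff F = 1) : HasSubst (F - 1) :=
  HasSubst.of_constantCoeff_zero' (by rw [map_sub, hF, map_one, sub_self])

theorem deriv_logOf {F : A⟦X⟧} (hF : constantCoeff F = 1) :
    d⁄dX A (logOf F) * F = d⁄dX A F := by
  rw [logOf_eq, derivative_subst (hsub hF), deriv_log]
  have h1 : (mk fun n ↦ algebraMap ℚ A ((-1 : ℚ) ^ n)) * (1 + X) = (1 : A⟦X⟧) := by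
    ext n
    rw [mul_add, mul_one, map_add]
    rcases n with _ | n
    · simp
    · rw [coeff_succ_mul_X, coeff_mk, coeff_mk, coeff_one, if_neg (Nat.succ_ne_zero n), pow_succ]
      simp
  have h2 := congrArg (substAlgHom (hsub hF)) h1
  rw [map_mul, map_add, map_one, substAlgHom_X, coe_substAlgHom] at h2
  have h3 : d⁄dX A (F - 1) = d⁄dX A F := by
    rw [map_sub]; simp
  rw [h3]
  linear_combination (d⁄dX A F) * h2

theorem logOf_unique [IsAddTorsionFree A] {F ℓ : A⟦X⟧} (hF : constantCoeff F = 1)
    (hℓ : constantCoeff ℓ = 0) (hd : d⁄dX A ℓ * F = d⁄dX A F) : ℓ = logOf F := by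
  apply derivative.ext
  · have h1 := deriv_logOf hF
    have hu : IsUnit F := by
      rw [isUnit_iff_constantCoeff, hF]; exact isUnit_one
    exact hu.mul_right_cancel (by rw [hd, h1])
  · rw [hℓ, constantCoeff_logOf hF]

theorem logOf_mul [IsAddTorsionFree A] {F G : A⟦X⟧} (hF : constantCoeff F = 1)
    (hG : constantCoeff G = 1) : logOf (F * G) = logOf F + logOf G := by
  symm
  apply logOf_unique
  · rw [map_mul, hF, hG, one_mul]
  · rw [map_add, constantCoeff_logOf hF, constantCoeff_logOf hG, add_zero]
  · have h1 := deriv_logOf hF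
    have h2 := deriv_logOf hG
    rw [map_add, Derivation.leibniz, smul_eq_mul, smul_eq_mul]
    linear_combination G * h1 + F * h2

theorem logOf_map {B : Type*} [CommRing B] [Algebra ℚ B] [IsAddTorsionFree B] (f : A →+* B) {F : A⟦X⟧}
    (hF : constantCoeff F = 1) : PowerSeries.map f (logOf F) = logOf (PowerSeries.map f F) := by
  have hd : ∀ G : A⟦X⟧, d⁄dX B (PowerSeries.map f G) = PowerSeries.map f (d⁄dX A G) := by
    intro G
    ext n
    simp [coeff_derivative]
  apply logOf_unique
  · rw [← coeff_zero_eq_constantCoeff_apply, coeff_map, coeff_zero_eq_constantCoeff_apply, hF, map_one]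
  · rw [← coeff_zero_eq_constantCoeff_apply, coeff_map, coeff_zero_eq_constantCoeff_apply,
      constantCoeff_logOf hF, map_zero]
  · rw [hd, hd, ← map_mul, deriv_logOf hF]

/-- `log (1 - e X^k)` -/
theorem logOf_one_sub [IsAddTorsionFree A] (e : A) (k : ℕ) (hk : 0 < k) :
    logOf (1 - C e * X ^ k : A⟦X⟧) =
      mk fun m => if k ∣ m ∧ m ≠ 0 then - (algebraMap ℚ A (1 / ((m / k : ℕ) : ℚ))) * e ^ (m / k) else 0 := by
  symm
  apply logOf_unique
  · rw [map_sub, map_one, map_mul, map_pow]
    simp [hk.ne']
  · simp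
  · ext m
    rw [mul_sub, mul_one, map_sub, coeff_derivative, coeff_mk, coeff_derivative, map_sub, coeff_one,
      if_neg (Nat.succ_ne_zero m), zero_sub]
    have hA : ∀ j : ℕ, 0 < j → (algebraMap ℚ A (1 / (j : ℚ))) * (j : A) = 1 := by
      intro j hj
      rw [← map_natCast (algebraMap ℚ A) j, ← map_mul, one_div, inv_mul_cancel₀, map_one]
      exact_mod_cast hj.ne'
    have h1 : coeff m (d⁄dX A (mk fun m => if k ∣ m ∧ m ≠ 0 then
        - (algebraMap ℚ A (1 / ((m / k : ℕ) : ℚ))) * e ^ (m / k) else 0) * (C e * X ^ k)) =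
        if k ≤ m ∧ k ∣ m + 1 then - (k : A) * e ^ ((m + 1) / k) else 0 := by
      rw [← mul_assoc, mul_comm _ (C e), mul_assoc, coeff_C_mul, coeff_mul_X_pow']
      by_cases hkm : k ≤ m
      · rw [if_pos hkm, coeff_derivative, coeff_mk]
        have h3 : k ∣ (m - k) + 1 ↔ k ∣ m + 1 := by
          have : m + 1 = (m - k) + 1 + k := by omega
          rw [this, Nat.dvd_add_self_right]
        by_cases hdv : k ∣ m + 1
        · rw [if_pos ⟨h3.2 hdv, Nat.succ_ne_zero _⟩, if_pos ⟨hkm, hdv⟩]
          obtain ⟨j, hj⟩ := hdv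
          have hj2 : 2 ≤ j := by
            by_contra hlt
            have : j ≤ 1 := by omega
            have : k * j ≤ k * 1 := Nat.mul_le_mul_left k this
            omega
          obtain ⟨i, rfl⟩ : ∃ i, j = i + 2 := ⟨j - 2, by omega⟩
          have h4 : m - k + 1 = k * (i + 1) := by
            have : k * (i + 2) = k * (i + 1) + k := by ring
            omega
          rw [h4, hj, Nat.mul_div_cancel_left _ hk, Nat.mul_div_cancel_left _ hk]
          have h5 : ((m - k : ℕ) : A) + 1 = (k : A) * ((i + 1 : ℕ) : A) := by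
            have := congrArg (fun t : ℕ => (t : A)) h4
            push_cast at this ⊢
            exact this
          rw [h5]
          have h6 := hA (i + 1) (by omega)
          linear_combination (- e ^ (i + 2) * (k : A)) * h6
        · rw [if_neg (fun h => hdv (h3.1 h.1)), if_neg (fun h => hdv h.2)]
          ring
      · rw [if_neg hkm, if_neg (fun h => hkm h.1), mul_zero]
    rw [h1, coeff_C_mul, coeff_X_pow]
    by_cases hdv : k ∣ m + 1
    · rw [if_pos ⟨hdv, Nat.succ_ne_zero m⟩]
      obtain ⟨j, hj⟩ := hdv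
      have hj1 : 1 ≤ j := by
        rcases Nat.eq_zero_or_pos j with h | h
        · subst h; omega
        · exact h
      rw [hj, Nat.mul_div_cancel_left _ hk]
      have h5 : (m : A) + 1 = (k : A) * (j : A) := by
        have := congrArg (fun t : ℕ => (t : A)) hj
        push_cast at this ⊢
        exact this
      have h6 := hA j (by omega)
      rw [h5]
      by_cases hj' : j = 1
      · subst hj'
        rw [if_neg (fun h => by omega), if_pos (by omega)]
        linear_combination (- e ^ 1 * (k : A)) * h6
      · have : k * 2 ≤ k * j := Nat.mul_le_mul_left k (by omega)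
        rw [if_pos ⟨by omega, ⟨j, rfl⟩⟩, if_neg (by
          intro h
          have : k * j = k * 1 := by rw [h, mul_one]
          exact hj' (Nat.eq_of_mul_eq_mul_left hk this))]
        linear_combination (- e ^ j * (k : A)) * h6
    · rw [if_neg (fun h => hdv h.1), if_neg (fun h => hdv h.2), if_neg (by
        intro h; exact hdv (by rw [h]))]
      ring

end
end R80HL
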