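import Pool.Agent.R80.HL.Psum
import Pool.Agent.R80.HL.Log

set_option autoImplicit false
set_option linter.style.longLine false

namespace R80HL
open Finset PowerSeries

section
variable {R : Type*} [CommRing R] [IsDomain R] [UniqueFactorizationMonoid R] [CharZero R] [Algebra ℚ R]
  (a b c d : R)

/-- the weighted sum as a power series in the degree variable -/
noncomputable def Ws {A : Type*} [CommRing A] [Algebra R A] {n : ℕ} (x : Fin n → A) : A⟦X⟧ :=
  PowerSeries.mk fun m => MvPolynomial.aeval x (WW a b c d n m)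

/-- coefficients of the correction term -/
noncomputable def kap (m : ℕ) : R :=
  if m = 0 ∨ ¬ Even m then 0
  else if Odd (m / 2) then algebraMap ℚ R (1 / (m : ℚ)) * (a ^ (m / 2) * c ^ (m / 2))
  else algebraMap ℚ R (1 / (m : ℚ)) *
    (a ^ (m / 2 / 2) * c ^ (m / 2 / 2) * (a ^ (m / 2 / 2) * c ^ (m / 2 / 2) - 2 * (b ^ (m / 2 / 2) * d ^ (m / 2 / 2))))

/-- the correction term -/
noncomputable def Ks {A : Type*} [CommRing A] [Algebra R A] {n : ℕ} (x : Fin n → A) : A⟦X⟧ :=
  PowerSeries.mk fun m => algebraMap R A (kap a b c d m) * ∑ i, x i ^ m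

noncomputable def Cs {A : Type*} [CommRing A] [Algebra R A] (u : A) : A⟦X⟧ :=
  PowerSeries.mk fun m => if Even m then algebraMap R A (pw a b c d (m / 2)) * (-u ^ 2) ^ (m / 2) else 0

variable {A : Type*} [CommRing A] [Algebra R A]

theorem Ws_cc {n : ℕ} (x : Fin n → A) : constantCoeff (Ws a b c d x) = 1 := by
  rw [← coeff_zero_eq_constantCoeff_apply, Ws, coeff_mk, WW_zero, map_one]

theorem Cs_cc (u : A) : constantCoeff (Cs a b c d u) = 1 := by
  rw [← coeff_zero_eq_constantCoeff_apply, Cs, coeff_mk]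
  simp [pw]

theorem Ws_pair {n : ℕ} (u : A) (x : Fin n → A) :
    Ws a b c d (Fin.cons u (Fin.cons (-u) x) : Fin (n + 2) → A) = Cs a b c d u * Ws a b c d x := by
  ext m
  rw [Ws, coeff_mk, WW_pair, coeff_mul, Finset.sum_filter]
  refine Finset.sum_congr rfl fun p _ => ?_
  rw [Cs, Ws, coeff_mk, coeff_mk]
  split_ifs <;> ring

theorem Cs_mul (u : A) : Cs a b c d u * (1 - C (algebraMap R A (a * c * (b * d)) * u ^ 4) * X ^ 4) =
    1 - C (algebraMap R A (a * c) * u ^ 2) * X ^ 2 := by
  ext m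
  rw [mul_sub, mul_one, map_sub, map_sub, ← mul_assoc, mul_comm (Cs a b c d u), mul_assoc, coeff_C_mul,
    coeff_C_mul, coeff_mul_X_pow', Cs, coeff_mk, coeff_X_pow, coeff_one]
  by_cases hm : Even m
  · obtain ⟨h, rfl⟩ := hm
    rw [if_pos ⟨h, rfl⟩]
    have e1 : (h + h) / 2 = h := by omega
    rw [e1]
    rcases h with _ | _ | h
    · simp [pw]
    · simp [pw]
    · rw [if_pos (by omega), coeff_mk, if_pos ⟨h, by omega⟩, if_neg (by omega), if_neg (by omega)]
      have e2 : (h + 1 + 1 + (h + 1 + 1) - 4) / 2 = h := by omega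
      rw [e2]
      have e3 : pw a b c d (h + 1 + 1) = a * c * (b * d) * pw a b c d h := by
        unfold pw
        have e4 : (h + 1 + 1 + 1) / 2 = (h + 1) / 2 + 1 := by omega
        have e5 : (h + 1 + 1) / 2 = h / 2 + 1 := by omega
        rw [e4, e5, pow_succ, pow_succ]; ring
      rw [e3]
      simp only [map_mul]
      ring
  · rw [if_neg hm]
    have h0 : m ≠ 0 := by rintro rfl; exact hm (by simp)
    have h2 : m ≠ 2 := by rintro rfl; exact hm (by decide)
    rw [if_neg h0, if_neg h2]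
    by_cases h4 : 4 ≤ m
    · rw [if_pos h4, coeff_mk, if_neg]
      · ring
      · intro h; apply hm
        obtain ⟨k, hk⟩ := h
        exact ⟨k + 2, by omega⟩
    · rw [if_neg h4]; ring

variable [Algebra ℚ A] [IsScalarTower ℚ R A] [IsAddTorsionFree A]

theorem logCs (u : A) : logOf (Cs a b c d u) + PowerSeries.mk (fun m =>
    algebraMap R A (kap a b c d m) * (u ^ m + (-u) ^ m)) = 0 := by
  have h1 := Cs_mul a b c d u
  have hc4 : constantCoeff (1 - C (algebraMap R A (a * c * (b * d)) * u ^ 4) * X ^ 4 : A⟦X⟧) = 1 := by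
    rw [map_sub, map_mul, map_pow]; simp
  have h2 := logOf_mul (Cs_cc a b c d u) hc4
  rw [h1, logOf_one_sub _ 2 (by norm_num), logOf_one_sub _ 4 (by norm_num)] at h2
  have h3 : logOf (Cs a b c d u) = _ := eq_sub_of_add_eq h2.symm
  rw [h3]
  ext m
  rw [map_add, map_sub, coeff_mk, coeff_mk, coeff_mk, map_zero]
  have hQ : ∀ q : ℚ, algebraMap R A (algebraMap ℚ R q) = algebraMap ℚ A q := fun q =>
    (IsScalarTower.algebraMap_apply ℚ R A q).symm
  unfold kap
  by_cases hm0 : m = 0
  · subst hm0; simp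
  by_cases hm : Even m
  · obtain ⟨h, rfl⟩ := hm
    have hh : h ≠ 0 := by omega
    have e1 : (h + h) / 2 = h := by omega
    have hev : Even (h + h) := ⟨h, rfl⟩
    have hk0 : ¬ (h + h = 0 ∨ ¬ Even (h + h)) := by
      rintro (h1 | h1)
      · exact hm0 h1
      · exact h1 hev
    rw [e1, if_pos (show 2 ∣ h + h ∧ h + h ≠ 0 from ⟨⟨h, by omega⟩, hm0⟩), if_neg hk0, hev.neg_pow]
    have hqq : (1 / (((h + h : ℕ)) : ℚ)) = (1 / (h : ℚ)) * (1 / 2) := by
      have : (h : ℚ) ≠ 0 := by exact_mod_cast hh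
      push_cast; field_simp; ring
    have h12 : algebraMap ℚ A (1 / 2) * 2 = 1 := by
      rw [← map_ofNat (algebraMap ℚ A) 2, ← map_mul]; norm_num
    have hu : u ^ (h + h) = (u ^ 2) ^ h := by rw [← pow_mul]; congr 1; ring
    by_cases ho : Odd h
    · rw [if_neg (show ¬ (4 ∣ h + h ∧ h + h ≠ 0) by
        rintro ⟨⟨k, hk⟩, _⟩
        obtain ⟨r, hr⟩ := ho
        omega), if_pos ho, map_mul, map_mul, hQ, hqq, map_mul, ← mul_pow a c, map_pow, map_mul, hu]
      simp only [mul_pow]
      linear_combination (algebraMap ℚ A (1 / (h : ℚ)) * ((algebraMap R A a) ^ h * (algebraMap R A c) ^ h) * (u ^ 2) ^ h) * h12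
    · rw [Nat.not_odd_iff_even] at ho
      obtain ⟨r, rfl⟩ := ho
      have hr : r ≠ 0 := by omega
      have e2 : (r + r + (r + r)) / 4 = r := by omega
      have e3 : (r + r) / 2 = r := by omega
      rw [if_pos (show 4 ∣ r + r + (r + r) ∧ r + r + (r + r) ≠ 0 from ⟨⟨r, by omega⟩, hm0⟩), e2, e3,
        if_neg (show ¬ Odd (r + r) by rw [Nat.not_odd_iff_even]; exact ⟨r, rfl⟩),
        map_mul (algebraMap R A) (algebraMap ℚ R _), hQ, hqq, hu]
      have hqr : (1 / (r : ℚ)) = 2 * (1 / ((r + r : ℕ) : ℚ)) := by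
        have : (r : ℚ) ≠ 0 := by exact_mod_cast hr
        push_cast; field_simp; ring
      rw [hqr]
      simp only [map_mul, map_sub, map_pow, map_ofNat, mul_pow]
      have hu4 : (u ^ 4) ^ r = (u ^ 2) ^ (r + r) := by rw [← pow_mul, ← pow_mul]; congr 1; ring
      rw [hu4]
      simp only [pow_add]
      linear_combination (algebraMap ℚ A (1 / ((r + r : ℕ) : ℚ)) * ((algebraMap R A a) ^ r * (algebraMap R A c) ^ r) *
        ((algebraMap R A a) ^ r * (algebraMap R A c) ^ r - 2 * ((algebraMap R A b) ^ r * (algebraMap R A d) ^ r)) *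
          ((u ^ 2) ^ r * (u ^ 2) ^ r)) * h12
  · have h2 : ¬ (2 ∣ m ∧ m ≠ 0) := by
      rintro ⟨⟨k, hk⟩, _⟩; exact hm ⟨k, by omega⟩
    have h4 : ¬ (4 ∣ m ∧ m ≠ 0) := by
      rintro ⟨⟨k, hk⟩, _⟩; exact hm ⟨2 * k, by omega⟩
    rw [if_neg h2, if_neg h4, if_pos (Or.inr hm)]
    simp

/-- `L = log w + correction` -/
noncomputable def LL {n : ℕ} (x : Fin n → A) : A⟦X⟧ := logOf (Ws a b c d x) + Ks a b c d x

theorem LL_pair {n : ℕ} (u : A) (x : Fin n → A) :
    LL a b c d (Fin.cons u (Fin.cons (-u) x) : Fin (n + 2) → A) = LL a b c d x := by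
  unfold LL
  rw [Ws_pair, logOf_mul (Cs_cc a b c d u) (Ws_cc a b c d x)]
  have h1 := logCs a b c d u
  have h2 : Ks a b c d (Fin.cons u (Fin.cons (-u) x) : Fin (n + 2) → A) =
      PowerSeries.mk (fun m => algebraMap R A (kap a b c d m) * (u ^ m + (-u) ^ m)) + Ks a b c d x := by
    ext m
    rw [Ks, Ks, coeff_mk, map_add, coeff_mk, coeff_mk, Fin.sum_univ_succ, Fin.sum_univ_succ]
    simp only [Fin.cons_zero, Fin.cons_succ]
    ring
  rw [h2]
  linear_combination h1

theorem add_pairs (l : List A) : ∀ {n : ℕ} (x : Fin n → A), ∃ (n' : ℕ) (y : Fin n' → A),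
    LL a b c d y = LL a b c d x ∧
      ∀ k, ps y k = ps x k + (l.map fun u => u ^ (k + 1) + (-u) ^ (k + 1)).sum := by
  induction l with
  | nil => intro n x; exact ⟨n, x, rfl, by simp⟩
  | cons u l ih =>
    intro n x
    obtain ⟨n', y, h1, h2⟩ := ih x
    refine ⟨n' + 2, Fin.cons u (Fin.cons (-u) y), by rw [LL_pair, h1], ?_⟩
    intro k
    rw [ps_cons, ps_cons, h2, List.map_cons, List.sum_cons]
    ring

theorem uniformL (m : ℕ) : ∃ Λ : MvPolynomial ℕ R, ∀ (A : Type _) [CommRing A] [Algebra R A]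
    [Algebra ℚ A] [IsScalarTower ℚ R A] [IsAddTorsionFree A] (n : ℕ) (x : Fin n → A),
      coeff m (LL a b c d x) = MvPolynomial.aeval (ps x) Λ := by
  choose Φ hΦ using uniform a b c d
  set Φs : (MvPolynomial ℕ R)⟦X⟧ := PowerSeries.mk fun m => if m = 0 then 1 else Φ m with hΦs
  have hcc : constantCoeff Φs = 1 := by
    rw [← coeff_zero_eq_constantCoeff_apply, hΦs, coeff_mk, if_pos rfl]
  refine ⟨coeff m (logOf Φs) + MvPolynomial.C (kap a b c d m) * MvPolynomial.X (m - 1), ?_⟩
  intro A _ _ _ _ _ n x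
  have hmap : PowerSeries.map (MvPolynomial.aeval (ps x) : MvPolynomial ℕ R →ₐ[R] A).toRingHom Φs =
      Ws a b c d x := by
    ext k
    rw [coeff_map, hΦs, coeff_mk, Ws, coeff_mk]
    by_cases hk : k = 0
    · rw [if_pos hk, hk, WW_zero]; simp
    · rw [if_neg hk]
      have h1 := congrArg (MvPolynomial.aeval x) (hΦ k n)
      rw [← h1]
      change MvPolynomial.aeval (ps x) (Φ k) = _
      rw [← AlgHom.comp_apply]
      congr 1
      apply MvPolynomial.algHom_ext
      intro j
      simp [ps]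
  have hlog := logOf_map (MvPolynomial.aeval (ps x) : MvPolynomial ℕ R →ₐ[R] A).toRingHom hcc
  rw [hmap] at hlog
  rw [LL, map_add, ← hlog, coeff_map, map_add]
  congr 1
  rw [Ks, coeff_mk, map_mul, MvPolynomial.aeval_C, MvPolynomial.aeval_X]
  by_cases hm : m = 0
  · subst hm; simp [kap]
  · have : m - 1 + 1 = m := by omega
    rw [ps, this]

end

section
variable {R : Type*} [CommRing R] [IsDomain R] [UniqueFactorizationMonoid R] [CharZero R] [Algebra ℚ R]
  (a b c d : R)

theorem main (m : ℕ) : ∃ G : MvPolynomial {k : ℕ // Odd k} R, ∀ (A : Type _) [CommRing A] [IsDomain A]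
    [CharZero A] [Algebra R A] [Algebra ℚ A] [IsScalarTower ℚ R A] [IsAddTorsionFree A] (n : ℕ) (x : Fin n → A),
      coeff m (LL a b c d x) = MvPolynomial.aeval (fun k : {k : ℕ // Odd k} => ∑ i, x i ^ k.1) G := by
  obtain ⟨Λ, hΛ⟩ := uniformL a b c d m
  refine ⟨MvPolynomial.aeval (fun j : ℕ => if h : Odd (j + 1) then
    (MvPolynomial.X ⟨j + 1, h⟩ : MvPolynomial {k : ℕ // Odd k} R) else 0) Λ, ?_⟩
  intro A _ _ _ _ _ _ _ n x
  rw [← AlgHom.comp_apply]
  have h1 : (MvPolynomial.aeval (fun k : {k : ℕ // Odd k} => ∑ i, x i ^ k.1) :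
      MvPolynomial {k : ℕ // Odd k} R →ₐ[R] A).comp (MvPolynomial.aeval (fun j : ℕ => if h : Odd (j + 1) then
    (MvPolynomial.X ⟨j + 1, h⟩ : MvPolynomial {k : ℕ // Odd k} R) else 0)) =
      MvPolynomial.aeval (fun j => if Odd (j + 1) then ps x j else 0) := by
    apply MvPolynomial.algHom_ext
    intro j
    simp only [AlgHom.comp_apply, MvPolynomial.aeval_X]
    split_ifs with h
    · simp [ps]
    · simp
  rw [h1]
  -- polynomial in the number of pairs
  set P : Polynomial A := MvPolynomial.aeval (fun j => if Odd (j + 1) then Polynomial.C (ps x j) else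
    (1 + 2 * Polynomial.X) * Polynomial.C (ps x j)) Λ with hP
  have hPe : ∀ t : A, P.eval t = MvPolynomial.aeval (fun j => if Odd (j + 1) then ps x j else
      (1 + 2 * t) * ps x j) Λ := by
    intro t
    have : P.eval t = (((Polynomial.aeval t : Polynomial A →ₐ[A] A).restrictScalars R).comp
      (MvPolynomial.aeval (fun j => if Odd (j + 1) then Polynomial.C (ps x j) else
    (1 + 2 * Polynomial.X) * Polynomial.C (ps x j)))) Λ := by
      rw [AlgHom.comp_apply, ← hP]
      simp [Polynomial.aeval_def, Polynomial.eval₂_eq_eval_map]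
    rw [this]
    congr 1
    apply MvPolynomial.algHom_ext
    intro j
    simp only [AlgHom.comp_apply, MvPolynomial.aeval_X]
    split_ifs with h
    · simp
    · simp
  have hnat : ∀ k : ℕ, P.eval (k : A) = coeff m (LL a b c d x) := by
    intro k
    obtain ⟨n', y, hy1, hy2⟩ := add_pairs a b c d (List.replicate k (List.ofFn x)).flatten x
    rw [← hy1, hΛ A n' y, hPe]
    congr 1
    apply MvPolynomial.algHom_ext
    intro j
    simp only [MvPolynomial.aeval_X]
    rw [hy2]
    have hsum : ((List.replicate k (List.ofFn x)).flatten.map fun u => u ^ (j + 1) + (-u) ^ (j + 1)).sum =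
        (k : A) * ∑ i, (x i ^ (j + 1) + (- x i) ^ (j + 1)) := by
      rw [List.map_flatten, List.map_replicate, List.sum_flatten, List.map_replicate, List.sum_replicate,
        List.map_ofFn, List.sum_ofFn, nsmul_eq_mul]
      rfl
    rw [hsum]
    split_ifs with h
    · have : ∀ i, x i ^ (j + 1) + (- x i) ^ (j + 1) = 0 := by
        intro i; rw [h.neg_pow]; ring
      simp [this]
    · rw [Nat.not_odd_iff_even] at h
      have : ∀ i, x i ^ (j + 1) + (- x i) ^ (j + 1) = 2 * x i ^ (j + 1) := by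
        intro i; rw [h.neg_pow]; ring
      simp only [this]
      rw [← Finset.mul_sum]
      unfold ps
      ring
  have hconst : P = Polynomial.C (coeff m (LL a b c d x)) := by
    apply Polynomial.eq_of_infinite_eval_eq
    apply Set.Infinite.mono (s := Set.range (fun k : ℕ => (k : A)))
    · rintro _ ⟨k, rfl⟩
      simp only [Set.mem_setOf_eq, Polynomial.eval_C]
      exact hnat k
    · exact Set.infinite_range_of_injective Nat.cast_injective
  have hhalf := hPe (algebraMap ℚ A (-1 / 2))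
  rw [hconst, Polynomial.eval_C] at hhalf
  rw [hhalf]
  congr 1
  apply MvPolynomial.algHom_ext
  intro j
  simp only [MvPolynomial.aeval_X]
  split_ifs with h
  · rfl
  · have : (1 : A) + 2 * algebraMap ℚ A (-1 / 2) = 0 := by
      rw [← map_ofNat (algebraMap ℚ A) 2, ← map_one (algebraMap ℚ A), ← map_mul, ← map_add]
      norm_num
    rw [this, zero_mul]

end
end R80HL
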