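import Pool.Agent.R80.HL.W

set_option autoImplicit false
set_option linter.style.longLine false

namespace R80HL
open Finset MvPolynomial

/-- power sums: `ps x k = ∑ x_i^(k+1)` -/
def ps {A : Type*} [CommRing A] {n : ℕ} (x : Fin n → A) (k : ℕ) : A := ∑ i, x i ^ (k + 1)

theorem ps_cons {A : Type*} [CommRing A] {n : ℕ} (u : A) (x : Fin n → A) (k : ℕ) :
    ps (Fin.cons u x : Fin (n + 1) → A) k = u ^ (k + 1) + ps x k := by
  unfold ps; rw [Fin.sum_univ_succ]; simp

section
variable {R : Type*} [CommRing R]

theorem ps_hom (n k : ℕ) : (ps (X : Fin n → MvPolynomial (Fin n) R) k).IsHomogeneous (k + 1) := by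
  unfold ps
  exact IsHomogeneous.sum _ _ _ fun i _ => isHomogeneous_X_pow i (k + 1)

theorem ps_symm (n k : ℕ) : (ps (X : Fin n → MvPolynomial (Fin n) R) k).IsSymmetric := by
  intro σ
  unfold ps
  rw [map_sum]
  simp only [map_pow, rename_X]
  exact Equiv.sum_comp σ (fun i => (X i : MvPolynomial (Fin n) R) ^ (k + 1))

theorem exists_of_symm [Algebra ℚ R] {n : ℕ} (f : MvPolynomial (Fin n) R) (hf : f.IsSymmetric) :
    ∃ F : MvPolynomial ℕ R, aeval (ps (X : Fin n → MvPolynomial (Fin n) R)) F = f := by
  set S := (aeval (ps (X : Fin n → MvPolynomial (Fin n) R)) :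
    MvPolynomial ℕ R →ₐ[R] MvPolynomial (Fin n) R).range with hS
  have hps : ∀ k, ps (X : Fin n → MvPolynomial (Fin n) R) k ∈ S := by
    intro k
    rw [hS, AlgHom.mem_range]
    exact ⟨X k, by simp⟩
  have he : ∀ k, esymm (Fin n) R k ∈ S := by
    intro k
    induction k using Nat.strong_induction_on with
    | _ k ih =>
      rcases Nat.eq_zero_or_pos k with hk | hk
      · subst hk
        rw [esymm_zero]
        exact S.one_mem
      · have h1 : (k : MvPolynomial (Fin n) R) * esymm (Fin n) R k ∈ S := by
          rw [mul_esymm_eq_sum]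
          apply S.mul_mem
          · exact S.pow_mem (S.neg_mem S.one_mem) _
          · apply S.sum_mem
            intro p hp
            rw [mem_filter, HasAntidiagonal.mem_antidiagonal] at hp
            apply S.mul_mem
            · apply S.mul_mem
              · exact S.pow_mem (S.neg_mem S.one_mem) _
              · exact ih _ hp.2
            · have : psum (Fin n) R p.2 = ps (X : Fin n → MvPolynomial (Fin n) R) (p.2 - 1) := by
                unfold ps psum
                have h3 : p.2 - 1 + 1 = p.2 := by omega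
                rw [h3]
              rw [this]
              exact hps _
        have h2 : esymm (Fin n) R k = (algebraMap ℚ R (1 / k)) •
            ((k : MvPolynomial (Fin n) R) * esymm (Fin n) R k) := by
          have h4 : (algebraMap ℚ R (1 / k)) * (k : R) = 1 := by
            rw [← map_natCast (algebraMap ℚ R) k, ← map_mul, one_div, inv_mul_cancel₀, map_one]
            exact_mod_cast hk.ne'
          rw [MvPolynomial.smul_eq_C_mul, ← mul_assoc, ← map_natCast (C : R →+* MvPolynomial (Fin n) R) k,
            ← C_mul, h4, C_1, one_mul]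
        rw [h2]
        exact S.smul_mem h1 _
  obtain ⟨g, hg⟩ := esymmAlgHom_surjective (R := R) (σ := Fin n) (n := n) (by simp) ⟨f, hf⟩
  have h5 : f = aeval (fun i : Fin n => esymm (Fin n) R (i + 1)) g := by
    rw [← esymmAlgHom_apply, hg]
  have h6 : f ∈ S := by
    rw [h5]
    rw [aeval_def, eval₂_eq]
    apply S.sum_mem
    intro s _
    apply S.mul_mem
    · exact S.algebraMap_mem _
    · apply S.prod_mem
      intro i _
      exact S.pow_mem (he _) _
  rw [hS, AlgHom.mem_range] at h6
  exact h6

/-- the weight of a monomial in the power sums -/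
def wt (s : ℕ →₀ ℕ) : ℕ := ∑ k ∈ s.support, (k + 1) * s k

theorem mon_hom (n : ℕ) (s : ℕ →₀ ℕ) (r : R) :
    (aeval (ps (X : Fin n → MvPolynomial (Fin n) R)) (monomial s r)).IsHomogeneous (wt s) := by
  rw [aeval_monomial]
  rw [← zero_add (wt s)]
  apply IsHomogeneous.mul
  · exact isHomogeneous_C _ _
  · unfold wt Finsupp.prod
    exact IsHomogeneous.prod _ _ _ fun k _ => (ps_hom n k).pow _

/-- truncation by weight -/
noncomputable def trn (m : ℕ) (F : MvPolynomial ℕ R) : MvPolynomial ℕ R :=
  ∑ s ∈ F.support.filter (fun s => wt s ≤ m), monomial s (coeff s F)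

theorem trn_deg (m n : ℕ) (F : MvPolynomial ℕ R) :
    (aeval (ps (X : Fin n → MvPolynomial (Fin n) R)) (trn m F)).totalDegree ≤ m := by
  unfold trn
  rw [map_sum]
  apply (totalDegree_finsetSum _ _).trans
  apply Finset.sup_le
  intro s hs
  rw [mem_filter] at hs
  exact (mon_hom n s _).totalDegree_le.trans hs.2

theorem trn_eq (m n : ℕ) (F : MvPolynomial ℕ R)
    (hF : (aeval (ps (X : Fin n → MvPolynomial (Fin n) R)) F).totalDegree ≤ m) :
    aeval (ps (X : Fin n → MvPolynomial (Fin n) R)) (trn m F) =
      aeval (ps (X : Fin n → MvPolynomial (Fin n) R)) F := by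
  set g : MvPolynomial (Fin n) R := ∑ s ∈ F.support.filter (fun s => ¬ wt s ≤ m),
    aeval (ps (X : Fin n → MvPolynomial (Fin n) R)) (monomial s (coeff s F)) with hg
  have h1 : aeval (ps (X : Fin n → MvPolynomial (Fin n) R)) F =
      aeval (ps (X : Fin n → MvPolynomial (Fin n) R)) (trn m F) + g := by
    conv_lhs => rw [F.as_sum]
    rw [map_sum, trn, map_sum, hg, Finset.sum_filter_add_sum_filter_not]
  have h2 : g.totalDegree ≤ m := by
    have : g = aeval (ps (X : Fin n → MvPolynomial (Fin n) R)) F -
      aeval (ps (X : Fin n → MvPolynomial (Fin n) R)) (trn m F) := by rw [h1]; ring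
    rw [this]
    apply (totalDegree_sub _ _).trans
    exact max_le hF (trn_deg m n F)
  have h3 : g = 0 := by
    rw [← sum_homogeneousComponent g]
    apply Finset.sum_eq_zero
    intro i hi
    rw [Finset.mem_range] at hi
    rw [hg, map_sum]
    apply Finset.sum_eq_zero
    intro s hs
    rw [mem_filter] at hs
    rw [homogeneousComponent_of_mem (mon_hom n s _), if_neg]
    omega
  rw [h1, h3, add_zero]

theorem kill {n : ℕ} (D : MvPolynomial (Fin (n + 1)) R) (hs : D.IsSymmetric)
    (hd : D.totalDegree < n + 1)
    (h0 : aeval (Fin.cons 0 (X : Fin n → MvPolynomial (Fin n) R) : Fin (n + 1) → MvPolynomial (Fin n) R) D = 0) :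
    D = 0 := by
  by_contra hD
  obtain ⟨s, hsup⟩ := MvPolynomial.support_nonempty.2 hD
  have hco : coeff s D ≠ 0 := MvPolynomial.mem_support_iff.1 hsup
  have hev : aeval (Fin.cons 0 (X : Fin n → MvPolynomial (Fin n) R) : Fin (n + 1) → MvPolynomial (Fin n) R) D =
      Polynomial.coeff (finSuccEquiv R n D) 0 := by
    rw [Polynomial.coeff_zero_eq_aeval_zero]
    have : (aeval (Fin.cons 0 (X : Fin n → MvPolynomial (Fin n) R) : Fin (n + 1) → MvPolynomial (Fin n) R) :
        MvPolynomial (Fin (n + 1)) R →ₐ[R] MvPolynomial (Fin n) R) =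
        ((Polynomial.aeval (0 : MvPolynomial (Fin n) R) :
          Polynomial (MvPolynomial (Fin n) R) →ₐ[MvPolynomial (Fin n) R] MvPolynomial (Fin n) R).restrictScalars R).comp
          (finSuccEquiv R n).toAlgHom := by
      apply MvPolynomial.algHom_ext
      intro i
      refine Fin.cases ?_ (fun j => ?_) i
      · simp [finSuccEquiv_X_zero]
      · simp [finSuccEquiv_X_succ]
    rw [this]
    rfl
  rw [hev] at h0
  have hpos : ∀ i, 1 ≤ s i := by
    intro i
    by_contra hi
    have hi0 : s i = 0 := by omega
    set t : Fin (n + 1) →₀ ℕ := s.mapDomain (Equiv.swap 0 i) with ht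
    have h1 : coeff t D = coeff s D := by
      have := coeff_rename_mapDomain (Equiv.swap 0 i) (Equiv.injective _) D s
      rw [hs (Equiv.swap 0 i)] at this
      exact this
    have h2 : t 0 = 0 := by
      have h3 : t (Equiv.swap 0 i i) = s i := by
        rw [ht, Finsupp.mapDomain_apply (Equiv.injective _)]
      rw [Equiv.swap_apply_right] at h3
      rw [h3, hi0]
    have h4 := finSuccEquiv_coeff_coeff (Finsupp.tail t) D 0
    rw [h0, coeff_zero] at h4
    have h5 : Finsupp.cons 0 (Finsupp.tail t) = t := by
      have := Finsupp.cons_tail t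
      rw [h2] at this
      exact this
    rw [h5, h1] at h4
    exact hco h4.symm
  have h6 := le_totalDegree hsup
  have h7 : n + 1 ≤ s.sum fun _ e => e := by
    rw [Finsupp.sum_fintype _ _ (fun _ => rfl)]
    calc n + 1 = ∑ i : Fin (n + 1), 1 := by simp
      _ ≤ ∑ i, s i := Finset.sum_le_sum fun i _ => hpos i
  omega

end

section
variable {R : Type*} [CommRing R] [IsDomain R] [UniqueFactorizationMonoid R] [CharZero R] [Algebra ℚ R]
  (a b c d : R)

theorem uniform (m : ℕ) : ∃ Φ : MvPolynomial ℕ R, ∀ n : ℕ,
    aeval (ps (X : Fin n → MvPolynomial (Fin n) R)) Φ = WW a b c d n m := by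
  obtain ⟨F, hF⟩ := exists_of_symm (WW a b c d m m) (WW_symm a b c d m m)
  refine ⟨trn m F, ?_⟩
  have hm : aeval (ps (X : Fin m → MvPolynomial (Fin m) R)) (trn m F) = WW a b c d m m := by
    rw [trn_eq m m F, hF]
    rw [hF]; exact WW_totalDegree a b c d m m
  have hdown : ∀ n, aeval (ps (X : Fin (n + 1) → MvPolynomial (Fin (n + 1)) R)) (trn m F) = WW a b c d (n + 1) m →
      aeval (ps (X : Fin n → MvPolynomial (Fin n) R)) (trn m F) = WW a b c d n m := by
    intro n h
    have h1 := congrArg (aeval (Fin.cons 0 (X : Fin n → MvPolynomial (Fin n) R) : Fin (n + 1) → MvPolynomial (Fin n) R)) h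
    rw [WW_cons0, aeval_X_left, AlgHom.id_apply, ← AlgHom.comp_apply] at h1
    rw [← h1]
    congr 1
    apply MvPolynomial.algHom_ext
    intro k
    simp only [AlgHom.comp_apply, aeval_X]
    conv_rhs => rw [ps, map_sum]
    simp only [map_pow, aeval_X]
    rw [Fin.sum_univ_succ]
    simp [ps]
  have hup : ∀ n, m ≤ n → aeval (ps (X : Fin n → MvPolynomial (Fin n) R)) (trn m F) = WW a b c d n m →
      aeval (ps (X : Fin (n + 1) → MvPolynomial (Fin (n + 1)) R)) (trn m F) = WW a b c d (n + 1) m := by
    intro n hmn h
    have hsym : (aeval (ps (X : Fin (n + 1) → MvPolynomial (Fin (n + 1)) R)) (trn m F)).IsSymmetric := by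
      rw [← mem_symmetricSubalgebra]
      rw [aeval_def, eval₂_eq]
      apply Subalgebra.sum_mem
      intro s _
      apply Subalgebra.mul_mem
      · exact Subalgebra.algebraMap_mem _ _
      · apply Subalgebra.prod_mem
        intro i _
        apply Subalgebra.pow_mem
        rw [mem_symmetricSubalgebra]
        exact ps_symm _ _
    have h2 : aeval (ps (X : Fin (n + 1) → MvPolynomial (Fin (n + 1)) R)) (trn m F) - WW a b c d (n + 1) m = 0 := by
      apply kill
      · exact hsym.sub (WW_symm a b c d (n + 1) m)
      · apply lt_of_le_of_lt (totalDegree_sub _ _)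
        apply lt_of_le_of_lt (max_le (trn_deg m (n + 1) F) (WW_totalDegree a b c d (n + 1) m))
        omega
      · rw [map_sub, WW_cons0, aeval_X_left, AlgHom.id_apply, sub_eq_zero, ← AlgHom.comp_apply, ← h]
        congr 1
        apply MvPolynomial.algHom_ext
        intro k
        simp only [AlgHom.comp_apply, aeval_X]
        conv_lhs => rw [ps, map_sum]
        simp only [map_pow, aeval_X]
        rw [Fin.sum_univ_succ]
        simp [ps]
    exact sub_eq_zero.1 h2
  intro n
  rcases le_total n m with h | h
  · have hd : ∀ k, k ≤ m → aeval (ps (X : Fin (m - k) → MvPolynomial (Fin (m - k)) R)) (trn m F) =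
        WW a b c d (m - k) m := by
      intro k
      induction k with
      | zero => intro _; exact hm
      | succ k ih =>
        intro hk
        apply hdown
        have e : m - (k + 1) + 1 = m - k := by omega
        rw [e]
        exact ih (by omega)
    have h2 := hd (m - n) (Nat.sub_le m n)
    have e : m - (m - n) = n := by omega
    rw [e] at h2
    exact h2
  · induction n, h using Nat.le_induction with
    | base => exact hm
    | succ n hn ih => exact hup n hn ih

end
end R80HL
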