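import Pool.Agent.R80.HL.Div

set_option autoImplicit false
set_option linter.style.longLine false

namespace R80HL
open Finset MvPolynomial

section
variable {R : Type*} [CommRing R] [IsDomain R] [UniqueFactorizationMonoid R] [CharZero R] (a b c d : R)

/-- the degree `m` part of the weighted sum, as a polynomial in `n` variables -/
noncomputable def WW (n m : ℕ) : MvPolynomial (Fin n) R := (VV_dvd_NN a b c d n m).choose

theorem WW_spec (n m : ℕ) : NN a b c d n m (X : Fin n → MvPolynomial (Fin n) R) =
    VV (X : Fin n → MvPolynomial (Fin n) R) * WW a b c d n m := (VV_dvd_NN a b c d n m).choose_spec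

theorem WW_eval {A : Type*} [CommRing A] [Algebra R A] (n m : ℕ) (x : Fin n → A) :
    NN a b c d n m x = VV x * aeval x (WW a b c d n m) := by
  have h := congrArg (aeval x) (WW_spec a b c d n m)
  rw [map_NN, map_mul] at h
  have h2 : aeval x (VV (X : Fin n → MvPolynomial (Fin n) R)) = VV x := by
    have := map_VV (aeval x : MvPolynomial (Fin n) R →ₐ[R] A).toRingHom (X : Fin n → MvPolynomial (Fin n) R)
    simpa using this
  rw [h2] at h
  simpa using h

theorem X_inj (n : ℕ) : Function.Injective (X : Fin n → MvPolynomial (Fin n) R) :=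
  MvPolynomial.X_injective

theorem WW_cons0 {A : Type*} [CommRing A] [Algebra R A] (n m : ℕ) (x : Fin n → A) :
    aeval (Fin.cons 0 x : Fin (n + 1) → A) (WW a b c d (n + 1) m) = aeval x (WW a b c d n m) := by
  have hgen : aeval (Fin.cons 0 (X : Fin n → MvPolynomial (Fin n) R) : Fin (n + 1) → MvPolynomial (Fin n) R)
      (WW a b c d (n + 1) m) = WW a b c d n m := by
    have h1 := WW_eval a b c d (n + 1) m
      (Fin.cons 0 (X : Fin n → MvPolynomial (Fin n) R) : Fin (n + 1) → MvPolynomial (Fin n) R)
    rw [NN_cons0, WW_spec, VV_cons] at h1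
    have hne : (∏ j, ((0 : MvPolynomial (Fin n) R) - X j)) * VV (X : Fin n → MvPolynomial (Fin n) R) ≠ 0 := by
      apply mul_ne_zero
      · rw [Finset.prod_ne_zero_iff]
        intro j _
        rw [zero_sub, neg_ne_zero]
        exact X_ne_zero j
      · exact VV_ne_zero _ (X_inj n)
    apply mul_left_cancel₀ hne
    rw [← h1]; ring
  have h2 := congrArg (aeval x) hgen
  rw [← h2, ← AlgHom.comp_apply]
  congr 1
  apply MvPolynomial.algHom_ext
  intro i
  simp only [AlgHom.comp_apply, aeval_X]
  refine Fin.cases ?_ (fun j => ?_) i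
  · simp
  · simp

theorem WW_pair {A : Type*} [CommRing A] [Algebra R A] (n m : ℕ) (u : A) (x : Fin n → A) :
    aeval (Fin.cons u (Fin.cons (-u) x) : Fin (n + 2) → A) (WW a b c d (n + 2) m) =
      ∑ p ∈ (Finset.HasAntidiagonal.antidiagonal m).filter (fun p => Even p.1),
        algebraMap R A (pw a b c d (p.1 / 2)) * (-u ^ 2) ^ (p.1 / 2) * aeval x (WW a b c d n p.2) := by
  set y : Fin (n + 2) → MvPolynomial (Fin (n + 1)) R := Fin.cons (X 0) (Fin.cons (-X 0) (fun i : Fin n => X i.succ)) with hy
  have hx0 : (X 0 : MvPolynomial (Fin (n + 1)) R) ≠ -X 0 := by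
    intro h
    have h2 : (2 : MvPolynomial (Fin (n + 1)) R) * X 0 = 0 := by linear_combination h
    rcases mul_eq_zero.1 h2 with h3 | h3
    · exact two_ne_zero h3
    · exact X_ne_zero _ h3
  have hev : ∀ i : Fin n, (-X 0 : MvPolynomial (Fin (n + 1)) R) ≠ X i.succ := by
    intro i h
    have h2 := congrArg (aeval (fun t : Fin (n + 1) => if t = 0 then (1 : R) else 0)) h
    simp [Fin.succ_ne_zero] at h2
  have hinj : Function.Injective y := by
    rw [hy, Fin.cons_injective_iff, Fin.cons_injective_iff]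
    refine ⟨?_, ?_, ?_⟩
    · rintro ⟨i, hi⟩
      revert hi
      refine Fin.cases ?_ (fun j => ?_) i
      · intro hi; exact hx0 hi.symm
      · intro hi
        rw [Fin.cons_succ] at hi
        exact Fin.succ_ne_zero j (MvPolynomial.X_injective hi)
    · rintro ⟨i, hi⟩
      exact hev i hi.symm
    · intro i j hij
      exact Fin.succ_injective _ (MvPolynomial.X_injective hij)
  have hgen : aeval y (WW a b c d (n + 2) m) =
      ∑ p ∈ (Finset.HasAntidiagonal.antidiagonal m).filter (fun p => Even p.1),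
        algebraMap R (MvPolynomial (Fin (n + 1)) R) (pw a b c d (p.1 / 2)) * (-(X 0) ^ 2) ^ (p.1 / 2) *
          aeval (fun i : Fin n => (X i.succ : MvPolynomial (Fin (n + 1)) R)) (WW a b c d n p.2) := by
    have h1 := WW_eval a b c d (n + 2) m y
    have hV : VV y ≠ 0 := VV_ne_zero y hinj
    rw [hy, NN_pair, VV_pair] at h1
    rw [hy, VV_pair] at hV
    apply mul_left_cancel₀ hV
    rw [hy, ← h1]
    simp_rw [WW_eval a b c d n _ (fun i : Fin n => (X i.succ : MvPolynomial (Fin (n + 1)) R))]
    simp only [Finset.mul_sum]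
    refine Finset.sum_congr rfl fun p _ => ?_
    ring
  have h2 := congrArg (aeval (Fin.cons u x : Fin (n + 1) → A)) hgen
  rw [map_sum] at h2
  have h3 : aeval (Fin.cons u x : Fin (n + 1) → A) (aeval y (WW a b c d (n + 2) m)) =
      aeval (Fin.cons u (Fin.cons (-u) x) : Fin (n + 2) → A) (WW a b c d (n + 2) m) := by
    rw [← AlgHom.comp_apply]
    congr 1
    apply MvPolynomial.algHom_ext
    intro i
    simp only [AlgHom.comp_apply, aeval_X]
    refine Fin.cases ?_ (fun j => ?_) i
    · simp [hy]
    · refine Fin.cases ?_ (fun k => ?_) j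
      · simp [hy]
      · simp [hy]
  rw [← h3, h2]
  refine Finset.sum_congr rfl fun p _ => ?_
  rw [map_mul, map_mul, AlgHom.commutes, map_pow, map_neg, map_pow, aeval_X, Fin.cons_zero]
  congr 1
  rw [← AlgHom.comp_apply]
  congr 1
  apply MvPolynomial.algHom_ext
  intro i
  simp

theorem WW_symm (n m : ℕ) : (WW a b c d n m).IsSymmetric := by
  intro σ
  have h1 := WW_eval a b c d n m ((X : Fin n → MvPolynomial (Fin n) R) ∘ σ)
  rw [NN_perm, VV_perm, WW_spec] at h1
  have hne : ((Equiv.Perm.sign σ : ℤ) : MvPolynomial (Fin n) R) * VV (X : Fin n → MvPolynomial (Fin n) R) ≠ 0 := by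
    apply mul_ne_zero
    · rcases Int.units_eq_one_or (Equiv.Perm.sign σ) with h | h <;> simp [h]
    · exact VV_ne_zero _ (X_inj n)
  have h2 : rename σ (WW a b c d n m) = aeval ((X : Fin n → MvPolynomial (Fin n) R) ∘ σ) (WW a b c d n m) := by
    have : (rename σ : MvPolynomial (Fin n) R →ₐ[R] MvPolynomial (Fin n) R) =
        aeval ((X : Fin n → MvPolynomial (Fin n) R) ∘ σ) := by
      apply MvPolynomial.algHom_ext
      intro i; simp
    rw [this]
  rw [h2]
  apply mul_left_cancel₀ hne
  rw [← h1]; ring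

theorem gg_hom {n : ℕ} (α β : ℕ) (i j : Fin n) :
    (gg α β (X i) (X j) : MvPolynomial (Fin n) R).IsHomogeneous 1 := by
  unfold gg
  split_ifs
  · exact (isHomogeneous_X R i).sub (isHomogeneous_X R j)
  · exact (isHomogeneous_X R i).add (isHomogeneous_X R j)
  · exact ((isHomogeneous_X R i).add (isHomogeneous_X R j)).neg

theorem WW_totalDegree (n m : ℕ) : (WW a b c d n m).totalDegree ≤ m := by
  set D : ℕ := ∑ i : Fin n, ∑ j ∈ Ioi i, 1 with hD
  have hV : (VV (X : Fin n → MvPolynomial (Fin n) R)).IsHomogeneous D := by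
    unfold VV
    exact IsHomogeneous.prod _ _ _ fun i _ => IsHomogeneous.prod _ _ _ fun j _ =>
      (isHomogeneous_X R i).sub (isHomogeneous_X R j)
  have hN : (NN a b c d n m (X : Fin n → MvPolynomial (Fin n) R)).IsHomogeneous (m + D) := by
    unfold NN
    apply IsHomogeneous.sum
    intro α hα
    rw [Finset.Nat.mem_antidiagonalTuple] at hα
    apply IsHomogeneous.mul
    · rw [← zero_add m, ← hα]
      apply IsHomogeneous.mul
      · exact isHomogeneous_C _ _
      · exact IsHomogeneous.prod _ _ _ fun i _ => isHomogeneous_X_pow i (α i)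
    · unfold GG
      exact IsHomogeneous.prod _ _ _ fun i _ => IsHomogeneous.prod _ _ _ fun j _ => gg_hom _ _ i j
  by_cases hW : WW a b c d n m = 0
  · rw [hW]; simp
  have hV0 : VV (X : Fin n → MvPolynomial (Fin n) R) ≠ 0 := VV_ne_zero _ (X_inj n)
  have h1 := totalDegree_mul_of_isDomain hV0 hW
  rw [← WW_spec, hV.totalDegree hV0, hN.totalDegree (by rw [WW_spec]; exact mul_ne_zero hV0 hW)] at h1
  omega

theorem WW_zero (n : ℕ) : WW a b c d n 0 = 1 := by
  have h := WW_spec a b c d n 0
  have h2 : NN a b c d n 0 (X : Fin n → MvPolynomial (Fin n) R) = VV X := by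
    unfold NN
    rw [Finset.Nat.antidiagonalTuple_zero_right, Finset.sum_singleton]
    have h3 : omF a b c d (0 : Fin n → ℕ) = 1 := by
      unfold omF
      apply om_zeros
      intro x hx
      rw [List.mem_insertionSort, List.mem_ofFn] at hx
      obtain ⟨i, hi⟩ := hx
      exact hi.symm
    rw [h3]
    simp [GG, VV, gg]
  rw [h2] at h
  have hV0 : VV (X : Fin n → MvPolynomial (Fin n) R) ≠ 0 := VV_ne_zero _ (X_inj n)
  exact mul_left_cancel₀ hV0 (by rw [← h, mul_one])

end
end R80HL
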